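import Pool.Agent.H92.EQ.TK

/-!
# MP_75a732_an, row KO: the mean
-/

set_option autoImplicit false

open scoped BigOperators ComplexConjugate ContDiff ComplexOrder
open MeasureTheory Filter Pool.Agent.H92.EQ

namespace Pool.Agent.H36.EQ

noncomputable section

theorem mixD_smul {ι : Type} [Fintype ι] [DecidableEq ι] {p m : ℕ} (c : ℂ)
    (S : (Fin p → ι) → (Fin p → ι) → ℂ) (H : Fin m → Matrix ι ι ℂ) :
    mixD (fun I J => c * S I J) H = c * mixD S H := by
  unfold mixD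
  rw [Finset.mul_sum]
  refine Finset.sum_congr rfl fun e _ => ?_
  rw [Finset.mul_sum]
  refine Finset.sum_congr rfl fun e' _ => ?_
  ring

theorem Q_Sn {N p q : ℕ} (F : Fin N → MvPolynomial (Fin N) ℂ) (d n : ℕ)
    (S : Form (Fin N) p) (u : Fin q → (Fin N → ℂ) → ℝ) (z : Fin N → ℂ) :
    Q (Sn F d n S) u z = ((d : ℝ) ^ (p * n))⁻¹ * Q (pull (iter F n) S) u z := by
  unfold Q
  have h1 : mixD (Sn F d n S z) (Fin.snoc (α := fun _ => Matrix (Fin N) (Fin N) ℂ)
      (fun j => hessR (u j) z) (Rad z)) = ((d : ℂ) ^ (p * n))⁻¹ *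
      mixD (pull (iter F n) S z) (Fin.snoc (α := fun _ => Matrix (Fin N) (Fin N) ℂ)
        (fun j => hessR (u j) z) (Rad z)) := mixD_smul _ _ _
  have h2 : ((d : ℂ) ^ (p * n))⁻¹ = ((((d : ℝ) ^ (p * n))⁻¹ : ℝ) : ℂ) := by push_cast; rfl
  rw [h1, h2, Complex.re_ofReal_mul]

theorem pair_const {N p q : ℕ} (c : ℝ) (f : (Fin N → ℂ) → ℝ) (S : Form (Fin N) p)
    (u : Fin q → (Fin N → ℂ) → ℝ) : pair (fun z => c * f z) S u = c * pair f S u := by
  unfold pair Iint
  rw [← integral_const_mul]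
  have h1 : (fun z => c * f z * Q S u z) = fun z => c * (f z * Q S u z) :=
    funext fun z => mul_assoc _ _ _
  rw [h1]

theorem pair_Sn {N p q : ℕ} (F : Fin N → MvPolynomial (Fin N) ℂ) (d n : ℕ)
    (φ : (Fin N → ℂ) → ℝ) (S : Form (Fin N) p) (u : Fin q → (Fin N → ℂ) → ℝ) :
    pair φ (Sn F d n S) u = ((d : ℝ) ^ (p * n))⁻¹ * pair φ (pull (iter F n) S) u := by
  unfold pair Iint
  rw [← integral_const_mul]
  have h1 : (fun z => φ z * Q (Sn F d n S) u z) =
      fun z => ((d : ℝ) ^ (p * n))⁻¹ * (φ z * Q (pull (iter F n) S) u z) := by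
    funext z
    rw [Q_Sn]
    ring
  rw [h1]

/-- the set where one of the entries is large -/
def bad (N : ℕ) (T : ℝ) : Set (Fin N → Fin N → ℂ) := {X | ∃ i j, T < ‖X i j‖}

theorem bad_open (N : ℕ) (T : ℝ) : IsOpen (bad N T) := by
  have h1 : bad N T = ⋃ i, ⋃ j, {X : Fin N → Fin N → ℂ | T < ‖X i j‖} := by
    ext X
    simp [bad]
  rw [h1]
  refine isOpen_iUnion fun i => isOpen_iUnion fun j => ?_
  exact isOpen_lt continuous_const (by fun_prop)

theorem gss_nonneg {N : ℕ} (X : Fin N → Fin N → ℂ) : 0 ≤ gss X := by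
  unfold gss
  exact Finset.prod_nonneg fun i _ => Finset.prod_nonneg fun j _ =>
    mul_nonneg (inv_nonneg.2 Real.pi_pos.le) (Real.exp_pos _).le

theorem bad_tendsto {N : ℕ} (hint : Integrable (gss : (Fin N → Fin N → ℂ) → ℝ)) (δ : ℝ)
    (hδ : 0 < δ) (d : ℕ) (hd : 2 ≤ d) :
    Tendsto (fun n : ℕ => ∫ X : Fin N → Fin N → ℂ,
      Set.indicator (bad N (Real.exp (δ * (d : ℝ) ^ n))) gss X) atTop (nhds 0) := by
  have h0 : (0 : ℝ) = ∫ _X : Fin N → Fin N → ℂ, (0 : ℝ) := by simp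
  rw [h0]
  refine tendsto_integral_of_dominated_convergence gss ?_ hint ?_ ?_
  · intro n
    exact hint.1.indicator (bad_open N _).measurableSet
  · intro n
    refine Eventually.of_forall fun X => ?_
    rw [Real.norm_eq_abs]
    by_cases hX : X ∈ bad N (Real.exp (δ * (d : ℝ) ^ n))
    · rw [Set.indicator_of_mem hX, abs_of_nonneg (gss_nonneg X)]
    · rw [Set.indicator_of_notMem hX, abs_zero]
      exact gss_nonneg X
  · refine Eventually.of_forall fun X => ?_
    have h1 : Tendsto (fun n : ℕ => Real.exp (δ * (d : ℝ) ^ n)) atTop atTop := by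
      refine Real.tendsto_exp_atTop.comp (Tendsto.const_mul_atTop hδ ?_)
      refine tendsto_pow_atTop_atTop_of_one_lt ?_
      exact_mod_cast (by omega : 1 < d)
    have h2 := h1.eventually_ge_atTop (∑ i, ∑ j, ‖X i j‖)
    refine tendsto_const_nhds.congr' ?_
    filter_upwards [h2] with n hn
    rw [Set.indicator_of_notMem]
    rintro ⟨i, j, hij⟩
    have h3 : ‖X i j‖ ≤ ∑ i, ∑ j, ‖X i j‖ := by
      refine (Finset.single_le_sum (f := fun j => ‖X i j‖) (fun j _ => norm_nonneg _)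
        (Finset.mem_univ j)).trans ?_
      exact Finset.single_le_sum (f := fun i => ∑ j, ‖X i j‖)
        (fun i _ => Finset.sum_nonneg fun j _ => norm_nonneg _) (Finset.mem_univ i)
    exact absurd (hij.trans_le (h3.trans hn)) (lt_irrefl _)

theorem null_shift {N : ℕ} (hTH : ∀ᵐ X : Fin N → Fin N → ℂ, (Matrix.of X).det ≠ 0) (θ : ℝ)
    (hθ : 0 < θ) :
    ∀ᵐ X : Fin N → Fin N → ℂ, (1 + (θ : ℂ) • Matrix.of X : Matrix (Fin N) (Fin N) ℂ).det ≠ 0 := by
  have hH1 : (volume : Measure (Fin N → ℂ)).IsAddHaarMeasure := inferInstance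
  have hH2 : (volume : Measure (Fin N → Fin N → ℂ)).IsAddHaarMeasure :=
    Measure.pi.isAddHaarMeasure (fun _ : Fin N => (volume : Measure (Fin N → ℂ)))
  have h1 : volume {Y : Fin N → Fin N → ℂ | ¬ (Matrix.of Y).det ≠ 0} = 0 := hTH
  have h2 : volume ((fun Y : Fin N → Fin N → ℂ =>
      (fun i j => (1 : Matrix (Fin N) (Fin N) ℂ) i j) + Y) ⁻¹'
      {Y : Fin N → Fin N → ℂ | ¬ (Matrix.of Y).det ≠ 0}) = 0 := by
    rw [measure_preimage_add]
    exact h1
  have h3 : volume ((fun X : Fin N → Fin N → ℂ => θ • X) ⁻¹'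
      ((fun Y : Fin N → Fin N → ℂ => (fun i j => (1 : Matrix (Fin N) (Fin N) ℂ) i j) + Y) ⁻¹'
      {Y : Fin N → Fin N → ℂ | ¬ (Matrix.of Y).det ≠ 0})) = 0 := by
    rw [Measure.addHaar_preimage_smul volume hθ.ne', h2, mul_zero]
  refine measure_mono_null ?_ h3
  intro X hX
  have h4 : (Matrix.of ((fun i j => (1 : Matrix (Fin N) (Fin N) ℂ) i j) + θ • X) :
      Matrix (Fin N) (Fin N) ℂ) = 1 + (θ : ℂ) • Matrix.of X := by
    ext i j
    simp
  show ¬ (Matrix.of ((fun i j => (1 : Matrix (Fin N) (Fin N) ℂ) i j) + θ • X)).det ≠ 0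
  rw [h4]
  exact hX

theorem pf_KO (hL3 : T_L3) (hL6 : T_L6) (hTH : T_TH) (hTN : T_TN) (hIA : T_IA) (hP1 : T_P1)
    (hL1 : T_L1) (hP3 : T_P3) (hP5 : T_P5) (hD7 : T_D7) (hD12 : T_D12) : T_KO := by
  intro N d p F hd hp hF hCs hTG hGM q hq φ u hφ hu ε hε
  have hd1 : 1 ≤ d := by omega
  have hd0 : (0 : ℝ) < d := by exact_mod_cast hd1
  obtain ⟨B, hB, hBφ⟩ := (hL6 N).1 φ hφ.smooth.continuousOn (fun r z hr hz =>
    hφ.hom r z (by exact_mod_cast hr.ne') hz)
  obtain ⟨φ1, hφ1d⟩ : ∃ φ1 : (Fin N → ℂ) → ℝ, ∀ z, φ1 z = φ z + B := ⟨_, fun _ => rfl⟩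
  have hφ1e : φ1 = fun z => φ z + B := funext hφ1d
  have hφ1 : Hom0 φ1 := by
    refine ⟨?_, fun l z hl hz => ?_⟩
    · rw [hφ1e]
      exact hφ.smooth.add contDiffOn_const
    · rw [hφ1d, hφ1d, hφ.hom l z hl hz]
  have hφ1n : ∀ z, z ≠ 0 → 0 ≤ φ1 z := by
    intro z hz
    rw [hφ1d]
    linarith [neg_le_of_abs_le (hBφ z hz)]
  have hφ1b : ∀ z, z ≠ 0 → |φ1 z| ≤ 2 * B := by
    intro z hz
    rw [abs_of_nonneg (hφ1n z hz), hφ1d]
    linarith [le_of_abs_le (hBφ z hz)]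
  obtain ⟨C, hC0, hPot⟩ := (hL6 N).2.2 φ1 hφ1
  have hell : Pot (ell : (Fin N → ℂ) → ℝ) := (hL3 N).1
  obtain ⟨c, hc, hT⟩ := hTG q
  obtain ⟨c0, hc0d⟩ : ∃ c0 : ℝ, c0 = mass q (om N p) := ⟨_, rfl⟩
  have hc0 : 0 < c0 := by rw [hc0d]; exact ((hD7 N p).2 q hq).1
  have hom : ProjForm (om N p) := (hD7 N p).1
  have hgss : ∫ X : Fin N → Fin N → ℂ, gss X = 1 := (hIA N p (om N p) hp hom).1
  have hgi : Integrable (gss : (Fin N → Fin N → ℂ) → ℝ) := by
    by_contra h
    rw [integral_undef h] at hgss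
    exact zero_ne_one hgss
  have hdet : ∀ᵐ X : Fin N → Fin N → ℂ, (Matrix.of X).det ≠ 0 :=
    (hTH N ⟨0, by omega⟩ ⟨0, by omega⟩).1
  -- the parameters
  obtain ⟨i1, hi1⟩ := hCs q hq φ1 u hφ1 hφ1n hu (ε / 16) (by positivity)
  obtain ⟨K0, hK0d⟩ : ∃ K0 : ℝ, K0 = C * c * c0 := ⟨_, rfl⟩
  have hK0 : 0 < K0 := by rw [hK0d]; positivity
  obtain ⟨δ, hδd⟩ : ∃ δ : ℝ, δ = ε / (32 * K0 * (d : ℝ) ^ i1) := ⟨_, rfl⟩
  have hδ : 0 < δ := by rw [hδd]; positivity
  have hδ2 : K0 * (2 * δ * (d : ℝ) ^ i1) = ε / 16 := by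
    rw [hδd]
    field_simp
    norm_num
  obtain ⟨n0, hn0, hCst⟩ := hi1 δ hδ
  have hbt := bad_tendsto hgi δ hδ d hd
  have hev1 : ∀ᶠ n : ℕ in atTop, ∫ X : Fin N → Fin N → ℂ,
      Set.indicator (bad N (Real.exp (δ * (d : ℝ) ^ n))) gss X < ε / (64 * B * c0) :=
    hbt.eventually_lt_const (by positivity)
  have hdp : Tendsto (fun n : ℕ => (d : ℝ) ^ (n - i1)) atTop atTop := by
    have h1 : Tendsto (fun n : ℕ => (d : ℝ) ^ n) atTop atTop :=
      tendsto_pow_atTop_atTop_of_one_lt (by exact_mod_cast (by omega : 1 < d))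
    exact h1.comp (tendsto_sub_atTop_nat i1)
  have hev2 : ∀ᶠ n : ℕ in atTop, 16 * K0 / ε ≤ (d : ℝ) ^ (n - i1) :=
    hdp.eventually_ge_atTop _
  obtain ⟨n1, hn1⟩ := eventually_atTop.1 (hev1.and hev2)
  refine ⟨max n0 n1, fun n hn S hS hmS => ?_⟩
  have hnn0 : n0 ≤ n := (le_max_left _ _).trans hn
  obtain ⟨hb1, hb2⟩ := hn1 n ((le_max_right _ _).trans hn)
  obtain ⟨m, hm⟩ : ∃ m, n = m + i1 := ⟨n - i1, by omega⟩
  have hm' : n - i1 = m := by omega
  rw [hm'] at hb2
  obtain ⟨D', hD'⟩ : ∃ D' : ℝ, D' = (d : ℝ) ^ (p * m) := ⟨_, rfl⟩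
  have hD'0 : 0 < D' := by rw [hD']; positivity
  have hcast : (((d ^ m : ℕ) : ℝ)) ^ p = D' := by
    rw [hD']
    push_cast
    rw [← pow_mul, mul_comm]
  obtain ⟨θ, hθd⟩ : ∃ θ : ℝ, θ = Real.exp (-(2 * (δ * (d : ℝ) ^ n))) := ⟨_, rfl⟩
  have hθ : 0 < θ := by rw [hθd]; exact Real.exp_pos _
  have hθ1 : θ ≤ 1 := by
    rw [hθd]
    refine Real.exp_le_one_iff.2 ?_
    have : 0 < δ * (d : ℝ) ^ n := by positivity
    linarith
  have hlog : Real.log (1 / θ) = 2 * (δ * (d : ℝ) ^ n) := by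
    rw [one_div, Real.log_inv, hθd, Real.log_exp, neg_neg]
  have hΦ : IsH (d ^ m) (iter F m) := (hD12 N d F hd1 hF 0 m).1
  have hdm : 1 ≤ d ^ m := Nat.one_le_pow _ _ hd1
  -- one form
  have key : ∀ S : Form (Fin N) p, ProjForm S → mass q S = mass q (om N p) →
      |pair φ1 (Sn F d n S) u - pair φ1 (Sn F d m (om N p)) u| ≤ ε / 4 := by
    intro S hS hmS
    have hS1 : ProjForm (Sn F d i1 S) := (hD12 N d F hd1 hF 0 i1).2.2.2.2 p S hS
    have hmS1 : mass q (Sn F d i1 S) = c0 := by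
      rw [((hP5 N p q d S hq hS).2.1 F i1 hd1 hF), hmS, hc0d]
    have hSn : ProjForm (Sn F d n S) := (hD12 N d F hd1 hF 0 n).2.2.2.2 p S hS
    have hmSn : mass q (Sn F d n S) = c0 := by
      rw [((hP5 N p q d S hq hS).2.1 F n hd1 hF), hmS, hc0d]
    obtain ⟨K, hK⟩ : ∃ K : ℝ, K = D' * pair φ1 (Sn F d n S) u := ⟨_, rfl⟩
    have hKb : |K| ≤ 2 * B * c0 * D' := by
      rw [hK, abs_mul, abs_of_pos hD'0]
      have h1 := (hP3 N p q (Sn F d n S) u hq hSn hu).2.2.2 φ1 (2 * B) hφ1b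
      rw [hmSn] at h1
      calc D' * |pair φ1 (Sn F d n S) u| ≤ D' * (2 * B * c0) :=
            mul_le_mul_of_nonneg_left h1 hD'0.le
        _ = _ := by ring
    have ham : ∀ A : Matrix (Fin N) (Fin N) ℂ, am φ1 (iter F m) (Sn F d i1 S) u A =
        C * am (fun z => (ell z + φ1 z / C) - ell z) (iter F m) (Sn F d i1 S) u A := by
      intro A
      unfold am
      rw [← pair_const]
      have h1 : φ1 = fun z => C * ((ell z + φ1 z / C) - ell z) := by
        funext z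
        field_simp
        ring
      exact congrArg (fun f => pair f (pull (cmp (lin A) (iter F m)) (Sn F d i1 S)) u) h1
    obtain ⟨hI1, hI2, hI3⟩ := hT (d ^ m) (iter F m) hdm hΦ (fun z => ell z + φ1 z / C) ell u
      hPot hell hu (Sn F d i1 S) hS1 θ hθ hθ1
    have hJ1 : Integrable (fun X : Fin N → Fin N → ℂ => gss X *
        am φ1 (iter F m) (Sn F d i1 S) u (1 + (θ : ℂ) • Matrix.of X)) := by
      have h1 := hI1.const_mul C
      have h2 : (fun X : Fin N → Fin N → ℂ => gss X *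
          am φ1 (iter F m) (Sn F d i1 S) u (1 + (θ : ℂ) • Matrix.of X)) = fun X => C * (gss X *
          am (fun z => (ell z + φ1 z / C) - ell z) (iter F m) (Sn F d i1 S) u
            (1 + (θ : ℂ) • Matrix.of X)) := by
        funext X
        rw [ham]
        ring
      rw [h2]
      exact h1
    obtain ⟨E1, hE1⟩ : ∃ E1 : ℝ, E1 = ∫ X : Fin N → Fin N → ℂ, gss X *
      am φ1 (iter F m) (Sn F d i1 S) u (1 + (θ : ℂ) • Matrix.of X) := ⟨_, rfl⟩
    obtain ⟨E2, hE2⟩ : ∃ E2 : ℝ, E2 = ∫ X : Fin N → Fin N → ℂ, gss X *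
      am φ1 (iter F m) (Sn F d i1 S) u (Matrix.of X) := ⟨_, rfl⟩
    -- step 3
    have h3 : pair φ1 (Sn F d m (om N p)) u = D'⁻¹ * E2 := by
      rw [pair_Sn, hD', hE2]
      rw [hGM q (d ^ m) (iter F m) hdm hΦ φ1 u hφ1 hu (Sn F d i1 S) hS1 (hmS1.trans hc0d)]
    -- step 2
    have h2 : |E1 - E2| ≤ K0 * (1 + 2 * (δ * (d : ℝ) ^ n)) * (D' / (d : ℝ) ^ m) := by
      have e1 : E1 = C * ∫ X : Fin N → Fin N → ℂ, gss X *
          am (fun z => (ell z + φ1 z / C) - ell z) (iter F m) (Sn F d i1 S) u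
            (1 + (θ : ℂ) • Matrix.of X) := by
        rw [hE1, ← integral_const_mul]
        have h2 : (fun X : Fin N → Fin N → ℂ => gss X *
            am φ1 (iter F m) (Sn F d i1 S) u (1 + (θ : ℂ) • Matrix.of X)) = fun X => C * (gss X *
            am (fun z => (ell z + φ1 z / C) - ell z) (iter F m) (Sn F d i1 S) u
              (1 + (θ : ℂ) • Matrix.of X)) := by
          funext X
          rw [ham]
          ring
        rw [h2]
      have e2 : E2 = C * ∫ X : Fin N → Fin N → ℂ, gss X *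
          am (fun z => (ell z + φ1 z / C) - ell z) (iter F m) (Sn F d i1 S) u
            (Matrix.of X) := by
        rw [hE2, ← integral_const_mul]
        have h2 : (fun X : Fin N → Fin N → ℂ => gss X *
            am φ1 (iter F m) (Sn F d i1 S) u (Matrix.of X)) = fun X => C * (gss X *
            am (fun z => (ell z + φ1 z / C) - ell z) (iter F m) (Sn F d i1 S) u
              (Matrix.of X)) := by
          funext X
          rw [ham]
          ring
        rw [h2]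
      rw [e1, e2, ← mul_sub, abs_mul, abs_of_pos hC0]
      refine (mul_le_mul_of_nonneg_left hI3 hC0.le).trans (le_of_eq ?_)
      rw [hcast, hlog, hmS1, hK0d]
      push_cast
      ring
    -- step 1
    obtain ⟨Pb, hPb⟩ : ∃ Pb : ℝ, Pb = ∫ X : Fin N → Fin N → ℂ,
      Set.indicator (bad N (Real.exp (δ * (d : ℝ) ^ n))) gss X := ⟨_, rfl⟩
    have h1 : |E1 - K| ≤ D' * (ε / 16) + 4 * B * c0 * D' * Pb := by
      have e1 : E1 - K = ∫ X : Fin N → Fin N → ℂ, (gss X *
          am φ1 (iter F m) (Sn F d i1 S) u (1 + (θ : ℂ) • Matrix.of X) - gss X * K) := by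
        rw [integral_sub hJ1 (hgi.mul_const K), integral_mul_const, hgss, one_mul, hE1]
      have hbi : Integrable (fun X : Fin N → Fin N → ℂ =>
          Set.indicator (bad N (Real.exp (δ * (d : ℝ) ^ n))) gss X) :=
        hgi.indicator (bad_open N _).measurableSet
      have hg : Integrable (fun X : Fin N → Fin N → ℂ => gss X * (D' * (ε / 16)) +
          4 * B * c0 * D' * Set.indicator (bad N (Real.exp (δ * (d : ℝ) ^ n))) gss X) :=
        (hgi.mul_const _).add (hbi.const_mul _)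
      rw [e1, ← Real.norm_eq_abs]
      refine (norm_integral_le_of_norm_le hg ?_).trans (le_of_eq ?_)
      · filter_upwards [null_shift hdet θ hθ] with X hX
        rw [← mul_sub, norm_mul, Real.norm_eq_abs, Real.norm_eq_abs, abs_of_nonneg (gss_nonneg X)]
        by_cases hXb : X ∈ bad N (Real.exp (δ * (d : ℝ) ^ n))
        · rw [Set.indicator_of_mem hXb]
          have e2 := (hTN N p q (d ^ m) (iter F m) (Sn F d i1 S) φ1 u (2 * B) hq hdm hΦ hS1 hφ1
            hu hφ1b).2.1 _ hX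
          rw [hcast, hmS1] at e2
          have e3 : |am φ1 (iter F m) (Sn F d i1 S) u (1 + (θ : ℂ) • Matrix.of X) - K| ≤
              4 * B * c0 * D' := by
            refine (abs_sub _ _).trans ?_
            calc _ ≤ 2 * B * (D' * c0) + 2 * B * c0 * D' := add_le_add e2 hKb
              _ = _ := by ring
          have e4 := mul_le_mul_of_nonneg_left e3 (gss_nonneg X)
          have e5 : 0 ≤ gss X * (D' * (ε / 16)) := mul_nonneg (gss_nonneg X) (by positivity)
          calc _ ≤ gss X * (4 * B * c0 * D') := e4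
            _ = 4 * B * c0 * D' * gss X := by ring
            _ ≤ _ := le_add_of_nonneg_left e5
        · rw [Set.indicator_of_notMem hXb, mul_zero, add_zero]
          refine mul_le_mul_of_nonneg_left ?_ (gss_nonneg X)
          have e2 : ∀ i j, ‖(1 + (θ : ℂ) • Matrix.of X : Matrix (Fin N) (Fin N) ℂ) i j -
              (1 : Matrix (Fin N) (Fin N) ℂ) i j‖ ≤ Real.exp (-(δ * (d : ℝ) ^ n)) := by
            intro i j
            have e3 : (1 + (θ : ℂ) • Matrix.of X : Matrix (Fin N) (Fin N) ℂ) i j -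
                (1 : Matrix (Fin N) (Fin N) ℂ) i j = (θ : ℂ) * X i j := by
              simp
            have e4 : ‖X i j‖ ≤ Real.exp (δ * (d : ℝ) ^ n) := by
              by_contra h
              exact hXb ⟨i, j, not_le.1 h⟩
            rw [e3, norm_mul, Complex.norm_real, Real.norm_eq_abs, abs_of_pos hθ]
            calc θ * ‖X i j‖ ≤ θ * Real.exp (δ * (d : ℝ) ^ n) :=
                  mul_le_mul_of_nonneg_left e4 hθ.le
              _ = Real.exp (-(δ * (d : ℝ) ^ n)) := by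
                  rw [hθd, ← Real.exp_add]
                  ring_nf
          have e5 := hCst n hnn0 S hS hmS _ e2
          rw [hm', ← hD', ← hK] at e5
          calc _ ≤ ε / 16 * D' := e5
            _ = _ := by ring
      · rw [integral_add (hgi.mul_const _) (hbi.const_mul _), integral_mul_const,
          integral_const_mul, hgss, one_mul, hPb]
    -- conclusion
    have h5 : pair φ1 (Sn F d n S) u = D'⁻¹ * K := by
      rw [hK, ← mul_assoc, inv_mul_cancel₀ hD'0.ne', one_mul]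
    rw [h5, h3, ← mul_sub, abs_mul, abs_of_pos (inv_pos.2 hD'0)]
    have h6 : |K - E2| ≤ D' * (ε / 16) + 4 * B * c0 * D' * Pb +
        K0 * (1 + 2 * (δ * (d : ℝ) ^ n)) * (D' / (d : ℝ) ^ m) := by
      have h7 : K - E2 = (E1 - E2) - (E1 - K) := by ring
      rw [h7]
      refine (abs_sub _ _).trans ?_
      linarith
    have hdm0 : (0 : ℝ) < (d : ℝ) ^ m := by positivity
    have h8 : K0 * (1 + 2 * (δ * (d : ℝ) ^ n)) * (D' / (d : ℝ) ^ m) =
        D' * (K0 / (d : ℝ) ^ m + ε / 16) := by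
      rw [← hδ2, hm, pow_add]
      field_simp
    have h9 : K0 / (d : ℝ) ^ m ≤ ε / 16 := by
      rw [div_le_iff₀ hdm0]
      rw [div_le_iff₀ hε] at hb2
      linarith
    have h10 : 4 * B * c0 * Pb ≤ ε / 16 := by
      have h11 : Pb ≤ ε / (64 * B * c0) := by rw [hPb]; exact hb1.le
      calc 4 * B * c0 * Pb ≤ 4 * B * c0 * (ε / (64 * B * c0)) :=
            mul_le_mul_of_nonneg_left h11 (by positivity)
        _ = ε / 16 := by
            field_simp
            norm_num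
    have h12 : |K - E2| ≤ D' * (ε / 4) := by
      refine h6.trans ?_
      rw [h8]
      have h13 : D' * (4 * B * c0 * Pb) ≤ D' * (ε / 16) := mul_le_mul_of_nonneg_left h10 hD'0.le
      have h14 : D' * (K0 / (d : ℝ) ^ m) ≤ D' * (ε / 16) := mul_le_mul_of_nonneg_left h9 hD'0.le
      linarith
    calc D'⁻¹ * |K - E2| ≤ D'⁻¹ * (D' * (ε / 4)) :=
          mul_le_mul_of_nonneg_left h12 (inv_pos.2 hD'0).le
      _ = ε / 4 := by rw [← mul_assoc, inv_mul_cancel₀ hD'0.ne', one_mul]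
  -- from `φ1` to `φ`
  have hdiff : ∀ S : Form (Fin N) p, ProjForm S → mass q S = mass q (om N p) →
      pair φ1 (Sn F d n S) u = pair φ (Sn F d n S) u + B * c0 := by
    intro S hS hmS
    have hSn : ProjForm (Sn F d n S) := (hD12 N d F hd1 hF 0 n).2.2.2.2 p S hS
    have hmSn : mass q (Sn F d n S) = c0 := by
      rw [((hP5 N p q d S hq hS).2.1 F n hd1 hF), hmS, hc0d]
    have hLH : ∀ j, LH (1 : ℝ) (u j) := fun j => (hL1 N 0 0 0 0 (u j) (u j)).2.2.1 (hu j)
    have hint := (hP1 N p q (Sn F d n S) u (fun _ => 1) hq hSn hLH).2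
    have i1' := hint φ hφ.smooth.continuousOn
    have i2' := hint (fun _ => 1) continuousOn_const
    have h1 := (hP3 N p q (Sn F d n S) u hq hSn hu).2.2.1
    rw [hmSn] at h1
    rw [← h1, ← pair_const, hφ1e]
    unfold pair Iint
    have i3' : IntegrableOn (fun z => B * (fun _ : Fin N → ℂ => (1 : ℝ)) z * Q (Sn F d n S) u z)
        {z : Fin N → ℂ | 0 ≤ ell z ∧ ell z < 1} := by
      have h2 : (fun z => B * (fun _ : Fin N → ℂ => (1 : ℝ)) z * Q (Sn F d n S) u z) =
          fun z => B * ((fun _ : Fin N → ℂ => (1 : ℝ)) z * Q (Sn F d n S) u z) :=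
        funext fun z => mul_assoc _ _ _
      rw [h2]
      exact i2'.const_mul B
    rw [← integral_add i1' i3']
    have h3 : (fun z => (φ z + B) * Q (Sn F d n S) u z) = fun z => φ z * Q (Sn F d n S) u z +
        B * (fun _ : Fin N → ℂ => (1 : ℝ)) z * Q (Sn F d n S) u z := by
      funext z
      ring
    rw [h3]
  have k1 := key S hS hmS
  have k2 := key (om N p) hom rfl
  have k3 : pair φ (Sn F d n S) u - pair φ (Sn F d n (om N p)) u =
      (pair φ1 (Sn F d n S) u - pair φ1 (Sn F d m (om N p)) u) -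
      (pair φ1 (Sn F d n (om N p)) u - pair φ1 (Sn F d m (om N p)) u) := by
    rw [hdiff S hS hmS, hdiff (om N p) hom rfl]
    ring
  rw [k3]
  calc _ ≤ _ := abs_sub _ _
    _ ≤ ε / 4 + ε / 4 := add_le_add k1 k2
    _ < ε := by linarith

end

end Pool.Agent.H36.EQ
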